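import Mathlib

namespace Pool.Agent.Results.MP_dc8297_co.Bottleneck

/-- `L i j`: source number `i` is joined to target number `j`; every vertex has degree `k` -/
def Regular {n : ℕ} (L : Fin n → Fin n → Prop) (k : ℕ) : Prop :=
  (∀ i, Set.ncard {j | L i j} = k) ∧ (∀ j, Set.ncard {i | L i j} = k)

/-- plain path in the `m`-fold concatenation: one vertex in each of the `m+1` classes -/
def IsPlain {n : ℕ} (L : Fin n → Fin n → Prop) (m : ℕ) (p : Fin (m + 1) → Fin n) : Prop :=
  ∀ t : Fin m, L (p t.castSucc) (p t.succ)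

def ExtConnected {n : ℕ} (L : Fin n → Fin n → Prop) (m : ℕ) : Prop :=
  ∀ s t : Fin n, ∃ p, IsPlain L m p ∧ p 0 = s ∧ p (Fin.last m) = t

/-- masks are multigraphs with edge set `E`, every source and target of degree `k` -/
def Rearrangeable {n : ℕ} (L : Fin n → Fin n → Prop) (k m : ℕ) : Prop :=
  ∀ (E : Type) [Finite E] (src tgt : E → Fin n),
    (∀ v, Set.ncard {e | src e = v} = k) → (∀ v, Set.ncard {e | tgt e = v} = k) →
    ∃ P : E → Fin (m + 1) → Fin n,
      (∀ e, IsPlain L m (P e) ∧ P e 0 = src e ∧ P e (Fin.last m) = tgt e) ∧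
      ∀ e e', e ≠ e' → ∀ t : Fin m,
        ¬ (P e t.castSucc = P e' t.castSucc ∧ P e t.succ = P e' t.succ)

def G (i j : Fin 6) : Prop :=
  ((i.1 < 3 ↔ j.1 < 3) ∧ ¬ (i = 0 ∧ j = 0) ∧ ¬ (i = 3 ∧ j = 3)) ∨ (i = 0 ∧ j = 3) ∨ (i = 3 ∧ j = 0)

instance : DecidableRel G := fun i j => by unfold G; infer_instance

theorem ncard_eq {α : Type} [Fintype α] (p : α → Prop) [DecidablePred p] :
    Set.ncard {x | p x} = (Finset.univ.filter p).card := by
  rw [← Set.ncard_coe_finset]; congr 1; ext; simp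

theorem reg : Regular G 3 := by
  constructor
  · intro i; rw [ncard_eq]; revert i; decide
  · intro i; rw [ncard_eq (fun j => G j i)]; revert i; decide

theorem conn : ExtConnected G 3 := by
  have : ∀ s t : Fin 6, ∃ x y : Fin 6, G s x ∧ G x y ∧ G y t := by decide
  intro s t
  obtain ⟨x, y, h1, h2, h3⟩ := this s t
  refine ⟨![s, x, y, t], ?_, rfl, rfl⟩
  intro u
  fin_cases u
  · exact h1
  · exact h2
  · exact h3

theorem cross (m : ℕ) (p : Fin (m + 1) → Fin 6) (hp : IsPlain G m p) (h0 : (p 0).1 < 3)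
    (h1 : ¬ (p (Fin.last m)).1 < 3) : ∃ t : Fin m, p t.castSucc = 0 ∧ p t.succ = 3 := by
  by_contra h
  push Not at h
  apply h1
  have key : ∀ i j : Fin 6, G i j → i.1 < 3 → (i = 0 → j ≠ 3) → j.1 < 3 := by decide
  have : ∀ u : Fin (m + 1), (p u).1 < 3 := by
    intro u
    induction u using Fin.induction with
    | zero => exact h0
    | succ t ih => exact key _ _ (hp t) ih (h t)
  exact this _

def tg (e : Fin 6 × Fin 3) : Fin 6 :=
  if e.1.1 < 3 then ⟨e.2.1 + 3, by omega⟩ else ⟨e.2.1, by omega⟩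

theorem notRearr : ¬ Rearrangeable G 3 (2 * 3) := by
  intro h
  obtain ⟨P, hP, hd⟩ := h (Fin 6 × Fin 3) Prod.fst tg
    (by intro v; rw [ncard_eq]; revert v; decide) (by intro v; rw [ncard_eq]; revert v; decide)
  let ι : Fin 3 × Fin 3 → Fin 6 × Fin 3 := fun e => (⟨e.1.1, by omega⟩, e.2)
  have hι : Function.Injective ι := by decide
  have hx : ∀ e : Fin 3 × Fin 3, ∃ t : Fin (2 * 3),
      P (ι e) t.castSucc = 0 ∧ P (ι e) t.succ = 3 := by
    intro e
    apply cross _ _ (hP _).1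
    · rw [(hP _).2.1]; exact e.1.2
    · rw [(hP _).2.2]; revert e; decide
  choose f hf using hx
  have hinj : Function.Injective f := by
    intro e e' hee
    by_contra hne
    apply hd (ι e) (ι e') (fun h => hne (hι h)) (f e)
    refine ⟨?_, ?_⟩
    · rw [(hf e).1, hee, (hf e').1]
    · rw [(hf e).2, hee, (hf e').2]
  have := Fintype.card_le_of_injective f hinj
  simp at this

theorem result : ∃ (n k m : ℕ) (L : Fin n → Fin n → Prop), 1 ≤ k ∧ 1 ≤ n ∧ 1 ≤ m ∧ Regular L k ∧
    ExtConnected L m ∧ ¬ Rearrangeable L k (2 * m) :=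
  ⟨6, 3, 3, G, by norm_num, by norm_num, by norm_num, reg, conn, notRearr⟩

end Pool.Agent.Results.MP_dc8297_co.Bottleneck
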